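import Pool.Agent.H525.EX.Stm5

/-!
# EX/PSI: the additive character `psi` (helper670)
-/

set_option autoImplicit false

namespace Pool.Agent.H670.EX

open Pool.Agent.H525.EX
open scoped Classical

theorem psi_fib {K : Type} [Field K] [CharP K 2] (w w₀ : K) :
    w ^ 2 + w = w₀ ^ 2 + w₀ ↔ w = w₀ ∨ w = w₀ + 1 := by
  have h2 : (2 : K) = 0 := CharTwo.two_eq_zero
  constructor
  · intro h
    have h3 : (w - w₀) * (w - (w₀ + 1)) = 0 := by
      linear_combination h + (w₀ ^ 2 + w₀ - w - w * w₀) * h2
    rcases mul_eq_zero.1 h3 with h4 | h4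
    · exact Or.inl (sub_eq_zero.1 h4)
    · exact Or.inr (sub_eq_zero.1 h4)
  · rintro (rfl | rfl)
    · rfl
    · linear_combination (w₀ + 1) * h2

theorem t_psi : S_psi := by
  intro K _ _ _
  refine ⟨?_, ?_⟩
  · unfold psi
    rw [if_pos ⟨0, by ring⟩]
  · have hcard : Fintype.card K =
        2 * ((Finset.univ : Finset K).filter (fun c => ∃ w : K, w ^ 2 + w = c)).card := by
      have h1 := Finset.card_eq_sum_card_fiberwise (s := (Finset.univ : Finset K))
        (t := (Finset.univ : Finset K).filter (fun c => ∃ w : K, w ^ 2 + w = c))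
        (f := fun w : K => w ^ 2 + w) (fun w _ => by
          rw [Finset.mem_coe, Finset.mem_filter]
          exact ⟨Finset.mem_univ _, w, rfl⟩)
      rw [Finset.card_univ] at h1
      rw [h1, mul_comm, ← smul_eq_mul, ← Finset.sum_const]
      refine Finset.sum_congr rfl fun c hc => ?_
      obtain ⟨-, w₀, rfl⟩ := Finset.mem_filter.1 hc
      have h2 : (Finset.univ : Finset K).filter (fun w => w ^ 2 + w = w₀ ^ 2 + w₀) =
          {w₀, w₀ + 1} := by
        ext w
        rw [Finset.mem_filter, Finset.mem_insert, Finset.mem_singleton, psi_fib]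
        exact ⟨fun h => h.2, fun h => ⟨Finset.mem_univ _, h⟩⟩
      rw [h2, Finset.card_pair]
      intro h
      have h3 : (1 : K) = 0 := by linear_combination -h
      exact one_ne_zero h3
    have h2 : ∑ c : K, psi c =
        2 * (((Finset.univ : Finset K).filter (fun c => ∃ w : K, w ^ 2 + w = c)).card : ℤ) -
          (Fintype.card K : ℤ) := by
      have h3 : ∀ c : K, psi c =
          2 * (if ∃ w : K, w ^ 2 + w = c then (1 : ℤ) else 0) - 1 := by
        intro c
        unfold psi
        by_cases h : ∃ w : K, w ^ 2 + w = c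
        · rw [if_pos h, if_pos h]
          norm_num
        · rw [if_neg h, if_neg h]
          norm_num
      rw [Finset.sum_congr rfl fun c _ => h3 c, Finset.sum_sub_distrib, ← Finset.mul_sum,
        Finset.sum_boole, Finset.sum_const, Finset.card_univ]
      simp
    rw [h2, hcard]
    push_cast
    ring

end Pool.Agent.H670.EX
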